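import Pool.Agent.W602.GT.Sys
import Pool.Agent.W602.GT.KPick

/-!
Derivations of towers of fields.
-/

set_option autoImplicit false

open FF Pool.Agent.W603.LV Pool.Agent.W602.GT MvPolynomial

namespace Pool.Agent.T9h4.TW

section

variable {L M : Type} [Field L] [Field M] [Algebra L M] [CharZero L]

/-- The derivation over `L` which multiplies the elements of a transcendence basis by constants
which are linearly independent over the rational numbers kills only algebraic elements. -/
theorem alg_of_der {w : ℕ} (t : Fin w → M)
    (ht : IsTranscendenceBasis L t) (lam : Fin w → L)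
    (hlam : ∀ a b : Fin w →₀ ℕ, ∑ j, (a j : L) * lam j = ∑ j, (b j : L) * lam j → a = b)
    (D : Derivation L M M) (hD : ∀ j, D (t j) = algebraMap L M (lam j) * t j) {h : M}
    (hh : D h = 0) : IsAlgebraic L h := by
  classical
  have halg := alg_of_basis t ht
  let _ : Algebra (MvPolynomial (Fin w) L) M :=
    ((aeval t : MvPolynomial (Fin w) L →ₐ[L] M) : MvPolynomial (Fin w) L →+* M).toAlgebra
  obtain ⟨P, hP, hPh⟩ := halg.isAlgebraic h
  let mon : (Fin w →₀ ℕ) → M := fun a => ∏ j, t j ^ a j
  have hmon0 : ∀ a, mon a ≠ 0 := by
    intro a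
    refine Finset.prod_ne_zero_iff.mpr fun j _ => pow_ne_zero _ ?_
    exact ht.1.ne_zero j
  have hDmon : ∀ a, D (mon a) = algebraMap L M (∑ j, (a j : L) * lam j) * mon a := by
    intro a
    have hpow : ∀ (j : Fin w) (n : ℕ), D (t j ^ n) = algebraMap L M (n * lam j) * t j ^ n := by
      intro j n
      rw [D.leibniz_pow, hD]
      cases n with
      | zero => simp
      | succ n =>
        simp only [nsmul_eq_mul, smul_eq_mul, Nat.add_sub_cancel, map_mul, map_natCast]
        ring
    have hs : ∀ s : Finset (Fin w), D (∏ j ∈ s, t j ^ a j)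
        = algebraMap L M (∑ j ∈ s, (a j : L) * lam j) * ∏ j ∈ s, t j ^ a j := by
      intro s
      induction s using Finset.induction_on with
      | empty => simp
      | insert j s hj ih =>
        rw [Finset.prod_insert hj, Finset.sum_insert hj, D.leibniz, ih, hpow]
        simp only [smul_eq_mul, map_add]
        ring
    exact hs Finset.univ
  have hlin : LinearIndependent (consts D) mon := by
    apply Module.End.eigenvectors_linearIndependent' ((overConsts D).toLinearMap)
      (fun a => algebraMap L (consts D) (∑ j, (a j : L) * lam j))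
    · intro a b hab
      exact hlam a b ((algebraMap L (consts D)).injective hab)
    · intro a
      rw [Module.End.hasEigenvector_iff, Module.End.mem_eigenspace_iff]
      refine ⟨?_, hmon0 a⟩
      change D (mon a) = _
      rw [hDmon]
      rfl
  -- the coefficients
  set N := P.natDegree + 1 with hN
  have hcoef : ∀ a : Fin w →₀ ℕ,
      D (∑ n ∈ Finset.range N, algebraMap L M (coeff a (P.coeff n)) * h ^ n) = 0 := by
    intro a
    rw [map_sum]
    refine Finset.sum_eq_zero fun n _ => ?_
    rw [D.leibniz, D.leibniz_pow, hh, D.map_algebraMap]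
    simp
  let c : (Fin w →₀ ℕ) → consts D := fun a =>
    ⟨∑ n ∈ Finset.range N, algebraMap L M (coeff a (P.coeff n)) * h ^ n, hcoef a⟩
  set S : Finset (Fin w →₀ ℕ) := (Finset.range N).biUnion fun n => (P.coeff n).support with hS
  have hexp : ∀ n ∈ Finset.range N, aeval t (P.coeff n)
      = ∑ a ∈ S, algebraMap L M (coeff a (P.coeff n)) * mon a := by
    intro n hn
    rw [MvPolynomial.aeval_def, MvPolynomial.eval₂_eq']
    apply Finset.sum_subset
    · exact Finset.subset_biUnion_of_mem (fun n => (P.coeff n).support) hn
    · intro a _ ha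
      rw [MvPolynomial.notMem_support_iff.mp ha, map_zero, zero_mul]
  have hsum : ∑ a ∈ S, c a • mon a = 0 := by
    have h1 : Polynomial.aeval h P = ∑ n ∈ Finset.range N, aeval t (P.coeff n) * h ^ n := by
      rw [Polynomial.aeval_eq_sum_range]
      rfl
    rw [hPh] at h1
    calc ∑ a ∈ S, c a • mon a
        = ∑ a ∈ S, ∑ n ∈ Finset.range N,
            (algebraMap L M (coeff a (P.coeff n)) * h ^ n) * mon a := by
          refine Finset.sum_congr rfl fun a _ => ?_
          rw [← Finset.sum_mul]
          rfl
      _ = ∑ n ∈ Finset.range N, ∑ a ∈ S,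
            (algebraMap L M (coeff a (P.coeff n)) * h ^ n) * mon a := Finset.sum_comm
      _ = ∑ n ∈ Finset.range N, aeval t (P.coeff n) * h ^ n := by
          refine Finset.sum_congr rfl fun n hn => ?_
          rw [hexp n hn, Finset.sum_mul]
          exact Finset.sum_congr rfl fun a _ => by ring
      _ = 0 := h1.symm
  have hc := linearIndependent_iff'.mp hlin S c hsum
  obtain ⟨n, hn⟩ : ∃ n, P.coeff n ≠ 0 := by
    by_contra hcon
    push Not at hcon
    exact hP (Polynomial.ext fun n => by rw [hcon n, Polynomial.coeff_zero])
  have hnN : n ∈ Finset.range N := by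
    rw [Finset.mem_range, hN]
    exact Nat.lt_succ_of_le (Polynomial.le_natDegree_of_ne_zero hn)
  obtain ⟨a, ha⟩ : ∃ a, coeff a (P.coeff n) ≠ 0 := MvPolynomial.ne_zero_iff.mp hn
  have haS : a ∈ S := by
    rw [hS, Finset.mem_biUnion]
    exact ⟨n, hnN, MvPolynomial.mem_support_iff.mpr ha⟩
  have hca := congrArg (Subtype.val) (hc a haS)
  refine ⟨∑ m ∈ Finset.range N, Polynomial.C (coeff a (P.coeff m)) * Polynomial.X ^ m, ?_, ?_⟩
  · intro h0
    have h1 := congrArg (fun q => Polynomial.coeff q n) h0
    simp only [Polynomial.finsetSum_coeff, Polynomial.coeff_C_mul_X_pow, Polynomial.coeff_zero]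
      at h1
    rw [Finset.sum_ite_eq, if_pos hnN] at h1
    exact ha h1
  · rw [map_sum]
    simp only [map_mul, Polynomial.aeval_C, map_pow, Polynomial.aeval_X]
    exact hca

end

section

variable {L M K : Type} [Field L] [Field M] [Field K] [Algebra L M] [Algebra L K] [Algebra M K]
  [IsScalarTower L M K]

/-- the field of constants of a derivation with values in a larger field -/
def kern (D : Derivation L M K) : IntermediateField L M where
  carrier := {x | D x = 0}
  mul_mem' := by
    intro a b ha hb
    simp only [Set.mem_ofPred_eq] at ha hb ⊢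
    rw [D.leibniz, ha, hb]; simp
  add_mem' := by
    intro a b ha hb
    simp only [Set.mem_ofPred_eq] at ha hb ⊢
    rw [map_add, ha, hb, add_zero]
  algebraMap_mem' := fun r => D.map_algebraMap r
  inv_mem' := by
    intro a ha
    simp only [Set.mem_ofPred_eq] at ha ⊢
    by_cases h0 : a = 0
    · rw [h0, inv_zero, map_zero]
    have h1 : D (a * a⁻¹) = 0 := by
      rw [mul_inv_cancel₀ h0, D.map_one_eq_zero]
    rw [D.leibniz, ha, smul_zero, add_zero] at h1
    exact (smul_eq_zero.1 h1).resolve_left h0

/-- a derivation is linear over its constants -/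
def overKern (D : Derivation L M K) : Derivation (kern D) M K :=
  Derivation.mk'
    { toFun := fun x => D x
      map_add' := fun x y => map_add D x y
      map_smul' := fun c x => by
        have h : D (c : M) = 0 := c.2
        change D ((c : M) * x) = c • D x
        rw [D.leibniz, h, smul_zero, add_zero]
        rfl }
    (fun x y => D.leibniz x y)

/-- A derivation which kills a transcendence basis vanishes. -/
theorem der_ext_into [CharZero L] {ι : Type} (t : ι → M) (ht : IsTranscendenceBasis L t)
    (D : Derivation L M K) (h : ∀ i, D (t i) = 0) : D = 0 := by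
  have hle : IntermediateField.adjoin L (Set.range t) ≤ kern D := by
    rw [IntermediateField.adjoin_le_iff]
    rintro _ ⟨i, rfl⟩
    exact h i
  have hS := ht.isAlgebraic_field
  have halg : Algebra.IsAlgebraic (kern D) M := alg_mono hle hS
  ext f
  have hint : IsIntegral (kern D) f := (halg.isAlgebraic f).isIntegral
  have hchar : CharZero (kern D) := charZero_of_injective_algebraMap
    (algebraMap L (kern D)).injective
  have h1 : overKern D (Polynomial.aeval f (minpoly (kern D) f)) = 0 := by
    rw [minpoly.aeval, map_zero]
  rw [Derivation.map_aeval] at h1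
  have h2 : Polynomial.aeval f (Polynomial.derivative (minpoly (kern D) f)) ≠ 0 :=
    (minpoly.irreducible hint).separable.aeval_derivative_ne_zero (minpoly.aeval _ _)
  exact (smul_eq_zero.mp h1).resolve_left h2

end

end Pool.Agent.T9h4.TW
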