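import Pool.Agent.T9h4.TW.Cmp

/-!
Relative pluricanonical forms from one circuit.
-/

set_option autoImplicit false

open FF Pool.Agent.W603.LV Pool.Agent.W602.GT

namespace Pool.Agent.T9h4.TW

/-- the weight of the forms -/
def bw (m q d : ℕ) : ℕ := (q * (m + 1) + d) * tn m

section

variable {k K : Type} [Field k] [Field K] [Algebra k K]

/-- the local factor -/
noncomputable def gform (E : Derivation k K K) {m : ℕ} (T : Fin (m + 1) → K) (q d : ℕ)
    (c : Fin (m + 1)) : K :=
  eta E T ^ (q * (m + 1) + d) * (∏ j, T j) ^ q * T c ^ d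

theorem ge_gform {P : Place k K} {E : Derivation k K K} {m : ℕ} {T : Fin (m + 1) → K}
    {b : Fin (m + 1)} (hb : ∀ j, P.ord (T b) ≤ P.ord (T j)) {ε : ℤ}
    (h : Ge P (- P.ord (T b) - ε * tri m) (eta E T)) (hT : ∀ j, T j ≠ 0) (q d : ℕ)
    (c : Fin (m + 1)) :
    Ge P (q * ∑ j, (P.ord (T j) - P.ord (T b)) - ε * (bw m q d : ℕ)) (gform E T q d c) := by
  unfold gform
  have h1 := ((h.pow (q * (m + 1) + d)).mul ((ge_ord P (∏ j, T j)).pow q)).mul
    ((ge_ord P (T c)).pow d)
  refine h1.mono ?_
  rw [ord_prod' P _ _ fun j _ => hT j, tri_eq, Finset.sum_sub_distrib]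
  have h2 := hb c
  unfold bw
  push_cast
  simp only [Finset.sum_const, Finset.card_univ, Fintype.card_fin, nsmul_eq_mul]
  push_cast
  have h3 : (0 : ℤ) ≤ d * (P.ord (T c) - P.ord (T b)) :=
    mul_nonneg (by positivity) (sub_nonneg.2 h2)
  nlinarith

end

variable {k L M K : Type} [Field k] [Field L] [Field M] [Field K] [Algebra k K]
  [Algebra k L] [Algebra L M] [Algebra L K] [Algebra M K] [IsScalarTower L M K]
  [IsScalarTower k L K]

/-- **Relative pluricanonical forms.** -/
theorem block [IsAlgClosed k] [CharZero k] [CharZero L]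
    (hcl : ∀ x : M, IsAlgebraic L x → ∃ c : L, x = algebraMap L M c)
    {m w : ℕ} (T : Fin (m + 1) → M) (hT : ∀ j, T j ≠ 0) (hsum : ∑ j, T j = 0)
    (hlin : LinearIndependent L (fun l => T ((Fin.last m).succAbove l)))
    (t : Fin w → M) (ht : ∀ i, ∃ a b, t i = T a / T b) (hb : IsTranscendenceBasis L t)
    (q d N : ℕ) (hqN : bw m q d ≤ q * N) (hpos : 0 < bw m q d) :
    ∃ g : Fin (m + 1) → M, (∀ c, g c ≠ 0) ∧ (∀ a b, g a * T b ^ d = g b * T a ^ d) ∧
      ∀ (P : Place k K) (D : Fin w → Derivation k K K),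
        (∀ i (x : L), D i (algebraMap L K x) = 0) →
        ((∀ i, DerLog P (D i)) ∨ ((∀ i, DerReg P (D i)) ∧
          ((∀ x : L, x ≠ 0 → P.ord (algebraMap L K x) = 0) → ∀ j l,
            P.ord (algebraMap M K (T j)) = P.ord (algebraMap M K (T l)) ∨
            (N : ℤ) ≤ |P.ord (algebraMap M K (T j)) - P.ord (algebraMap M K (T l))|))) →
        ∀ c, P.Reg (algebraMap M K (g c) *
          (Matrix.of fun i j => D i (algebraMap M K (t j))).det ^ (bw m q d)) := by
  classical
  obtain ⟨lam, hlam⟩ := exists_lam k w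
  obtain ⟨D0, hD0⟩ := exists_der t hb (fun j => algebraMap L M (algebraMap k L (lam j)) * t j)
  have ht0 : ∀ j, t j ≠ 0 := fun j => hb.1.ne_zero j
  have hconst : ∀ h, D0 h = 0 → ∃ c : L, h = algebraMap L M c := fun h hh =>
    hcl h (alg_of_der t hb (fun j => algebraMap k L (lam j)) (fun a b hab => by
      apply hlam
      apply (algebraMap k L).injective
      simpa using hab) D0 hD0 hh)
  have heta0 : eta D0 T ≠ 0 :=
    div_ne_zero (wr_ne hconst _ hlin) (Finset.prod_ne_zero_iff.2 fun j _ => hT j)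
  have hg0 : ∀ c, gform D0 T q d c ≠ 0 := fun c =>
    mul_ne_zero (mul_ne_zero (pow_ne_zero _ heta0)
      (pow_ne_zero _ (Finset.prod_ne_zero_iff.2 fun j _ => hT j))) (pow_ne_zero _ (hT c))
  have hpt : (∏ j, t j) ≠ 0 := Finset.prod_ne_zero_iff.2 fun j _ => ht0 j
  refine ⟨fun c => gform D0 T q d c / (∏ j, t j) ^ (bw m q d),
    fun c => div_ne_zero (hg0 c) (pow_ne_zero _ hpt), fun a b => ?_, ?_⟩
  · beta_reduce
    unfold gform
    ring
  intro P D hDL hcase c
  set W := bw m q d with hW
  have hinj : Function.Injective (algebraMap M K) := (algebraMap M K).injective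
  set tK : Fin w → K := fun j => algebraMap M K (t j) with htK
  set TK : Fin (m + 1) → K := fun j => algebraMap M K (T j) with hTK
  have htK0 : ∀ j, tK j ≠ 0 := fun j => by
    rw [htK]
    beta_reduce
    rw [Ne, map_eq_zero]
    exact ht0 j
  have hTK0 : ∀ j, TK j ≠ 0 := fun j => by
    rw [hTK]
    beta_reduce
    rw [Ne, map_eq_zero]
    exact hT j
  have hTKsum : ∑ j, TK j = 0 := by
    rw [hTK, ← map_sum, hsum, map_zero]
  have hdet : (Matrix.of fun i j => D i (tK j)).det = (∏ j, tK j) * (lmat tK D).det := by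
    rw [← Matrix.det_mul_row]
    congr 1
    ext i j
    simp only [Matrix.of_apply, lmat]
    have := htK0 j
    field_simp
  by_cases hδ : (lmat tK D).det = 0
  · have h1 : (Matrix.of fun i j => D i (algebraMap M K (t j))).det = 0 := by
      change (Matrix.of fun i j => D i (tK j)).det = 0
      rw [hdet, hδ, mul_zero]
    rw [h1, zero_pow hpos.ne', mul_zero]
    exact P.reg_zero
  set δ := (lmat tK D).det with hδdef
  set E := con tK lam D with hEdef
  have hEL : ∀ x : L, E (algebraMap L K x) = 0 := by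
    intro x
    rw [hEdef, con_apply]
    refine Finset.sum_eq_zero fun j _ => ?_
    have h1 : (fun i => D i (algebraMap L K x)) = 0 := by
      funext i
      exact hDL i x
    rw [h1]
    rw [Matrix.det_eq_zero_of_column_eq_zero j (fun i => by simp), mul_zero]
  have hcmp : ∀ x : M, E (algebraMap M K x) = δ * algebraMap M K (D0 x) := by
    refine compare t hb D0 E hEL δ fun j => ?_
    have h1 := con_t tK lam D htK0 j
    rw [hD0, map_mul, ← IsScalarTower.algebraMap_apply, ← IsScalarTower.algebraMap_apply]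
    change E (tK j) = δ * (algebraMap k K (lam j) * tK j)
    rw [h1]
    ring
  have hval : algebraMap M K (gform D0 T q d c / (∏ j, t j) ^ W) *
      (Matrix.of fun i j => D i (algebraMap M K (t j))).det ^ W = gform E TK q d c := by
    change _ * (Matrix.of fun i j => D i (tK j)).det ^ W = _
    rw [hdet, map_div₀, map_pow, map_prod]
    unfold gform
    rw [hTK, eta_compare D0 E hδ hcmp T]
    have h1 : (∏ j, tK j) ≠ 0 := Finset.prod_ne_zero_iff.2 fun j _ => htK0 j
    simp only [map_mul, map_pow, map_prod]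
    rw [hW, bw]
    change _ / (∏ j, tK j) ^ _ * _ = _
    field_simp
    ring
  change P.Reg (algebraMap M K (gform D0 T q d c / (∏ j, t j) ^ W) *
      (Matrix.of fun i j => D i (algebraMap M K (t j))).det ^ W)
  rw [hval, reg_iff_ge]
  obtain ⟨b', hb'⟩ : ∃ b' : Fin (m + 1), ∀ j, P.ord (TK b') ≤ P.ord (TK j) :=
    Finite.exists_min _
  have hsnn : (0 : ℤ) ≤ ∑ j, (P.ord (TK j) - P.ord (TK b')) :=
    Finset.sum_nonneg fun j _ => sub_nonneg.2 (hb' j)
  have hlogcase : (∀ i, DerLog P (D i)) → Ge P 0 (gform E TK q d c) := by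
    intro hD
    have h1 := ge_gform (P := P) (E := E) (ε := 0) hb' (by
      have hE : ∀ x : K, x ≠ 0 → Ge P (-0) (E x / x) := fun x hx => by
        rw [neg_zero]
        exact con_log tK lam D hD x
      exact eta_log hE hTK0 hTKsum b') hTK0 q d c
    refine h1.mono ?_
    rw [zero_mul, sub_zero]
    exact mul_nonneg (by positivity) hsnn
  rcases hcase with hD | ⟨hD, hP⟩
  · exact hlogcase hD
  by_cases hPL : ∀ x : L, x ≠ 0 → P.ord (algebraMap L K x) = 0
  · by_cases hall : ∀ j, P.ord (TK j) = P.ord (TK b')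
    · have ht0' : ∀ j, P.ord (tK j) = 0 := by
        intro j
        obtain ⟨a, b, hab⟩ := ht j
        have h1 : tK j = TK a / TK b := by
          rw [htK, hTK]
          beta_reduce
          rw [hab, map_div₀]
        rw [h1, P.ord_div (hTK0 _) (hTK0 _), hall, hall b, sub_self]
      have hE := con_reg tK lam D hD htK0 ht0'
      have h1 := ge_gform (P := P) (E := E) (ε := 0) hb' (by
        rw [zero_mul, sub_zero]
        exact eta_reg hE hTK0 hTKsum b' hall) hTK0 q d c
      refine h1.mono ?_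
      rw [zero_mul, sub_zero]
      exact mul_nonneg (by positivity) hsnn
    · push Not at hall
      obtain ⟨j0, hj0⟩ := hall
      have h1 := ge_gform (P := P) (E := E) (ε := 1) hb' (by
        have hE : ∀ x : K, x ≠ 0 → Ge P (-1) (E x / x) := fun x hx =>
          con_pole tK lam D hD htK0 hx
        exact eta_log hE hTK0 hTKsum b') hTK0 q d c
      refine h1.mono ?_
      rw [one_mul]
      have h2 := (hP hPL j0 b').resolve_left hj0
      change (N : ℤ) ≤ |P.ord (TK j0) - P.ord (TK b')| at h2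
      rw [abs_of_nonneg (sub_nonneg.2 (hb' j0))] at h2
      have h3 : P.ord (TK j0) - P.ord (TK b') ≤ ∑ j, (P.ord (TK j) - P.ord (TK b')) :=
        Finset.single_le_sum (f := fun j => P.ord (TK j) - P.ord (TK b'))
          (fun j _ => sub_nonneg.2 (hb' j)) (Finset.mem_univ j0)
      have h4 : ((bw m q d : ℕ) : ℤ) ≤ q * N := by exact_mod_cast hqN
      have h5 : (q : ℤ) * N ≤ q * ∑ j, (P.ord (TK j) - P.ord (TK b')) :=
        mul_le_mul_of_nonneg_left (h2.trans h3) (by positivity)
      linarith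
  · push Not at hPL
    obtain ⟨x, hx0, hx⟩ := hPL
    exact hlogcase fun i => log_of_vertical (hD i) (hDL i x) hx

end Pool.Agent.T9h4.TW
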