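import Pool.Agent.T9h4.TW.Base

/-!
Comparison of derivations and of Wronskians in towers of fields.
-/

set_option autoImplicit false

open FF Pool.Agent.W603.LV Pool.Agent.W602.GT

namespace Pool.Agent.T9h4.TW

variable {k L M K : Type} [Field k] [Field L] [Field M] [Field K] [Algebra k K]
  [Algebra L M] [Algebra L K] [Algebra M K] [IsScalarTower L M K]

/-- the difference of two derivations -/
noncomputable def dd (D0 : Derivation L M M) (E : Derivation k K K)
    (hE : ∀ x : L, E (algebraMap L K x) = 0) (δ : K) : Derivation L M K :=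
  Derivation.mk'
    { toFun := fun x => E (algebraMap M K x) - δ * algebraMap M K (D0 x)
      map_add' := fun x y => by
        simp only [map_add]
        ring
      map_smul' := fun c x => by
        have h1 : algebraMap M K (c • x) = algebraMap L K c * algebraMap M K x := by
          rw [Algebra.smul_def, map_mul, ← IsScalarTower.algebraMap_apply]
        have h2 : algebraMap M K (D0 (c • x)) = algebraMap L K c * algebraMap M K (D0 x) := by
          rw [D0.map_smul, Algebra.smul_def, map_mul, ← IsScalarTower.algebraMap_apply]
        have h3 : ∀ (a : L) (b : K), a • b = algebraMap L K a * b := fun a b => Algebra.smul_def a b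
        rw [h1, h2, E.leibniz, hE, RingHom.id_apply, h3]
        simp only [smul_eq_mul, mul_zero, add_zero]
        ring }
    (fun x y => by
      change E (algebraMap M K (x * y)) - δ * algebraMap M K (D0 (x * y)) =
        x • (E (algebraMap M K y) - δ * algebraMap M K (D0 y)) +
        y • (E (algebraMap M K x) - δ * algebraMap M K (D0 x))
      have h1 : ∀ (a : M) (b : K), a • b = algebraMap M K a * b := fun a b => Algebra.smul_def a b
      rw [map_mul, E.leibniz, D0.leibniz, h1, h1]
      simp only [smul_eq_mul, map_add, map_mul]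
      ring)

/-- A derivation which is proportional to `D0` on a transcendence basis is proportional to it. -/
theorem compare [CharZero L] {ι : Type} (t : ι → M) (ht : IsTranscendenceBasis L t)
    (D0 : Derivation L M M) (E : Derivation k K K) (hE : ∀ x : L, E (algebraMap L K x) = 0) (δ : K)
    (h : ∀ j, E (algebraMap M K (t j)) = δ * algebraMap M K (D0 (t j))) (x : M) :
    E (algebraMap M K x) = δ * algebraMap M K (D0 x) := by
  have h1 := der_ext_into t ht (dd D0 E hE δ) (fun j => by
    change E (algebraMap M K (t j)) - δ * algebraMap M K (D0 (t j)) = 0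
    rw [h, sub_self])
  have h2 : dd D0 E hE δ x = 0 := by rw [h1]; rfl
  exact sub_eq_zero.1 h2

omit [Algebra L K] [IsScalarTower L M K] in
theorem wr_compare {m : ℕ} (D0 : Derivation L M M) (E : Derivation k K K) {δ : K} (hδ : δ ≠ 0)
    (h : ∀ x : M, E (algebraMap M K x) = δ * algebraMap M K (D0 x)) (f : Fin m → M) :
    wr E (fun i => algebraMap M K (f i)) = δ ^ (tn m) * algebraMap M K (wr D0 f) := by
  have hE' : ∀ x : M, (δ⁻¹ • E) (algebraMap M K x) = algebraMap M K (D0 x) := by
    intro x
    rw [Derivation.smul_apply, h, smul_eq_mul]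
    field_simp
  have hit : ∀ (r : ℕ) (x : M), (⇑(δ⁻¹ • E))^[r] (algebraMap M K x) =
      algebraMap M K ((⇑D0)^[r] x) := by
    intro r x
    induction r with
    | zero => rfl
    | succ r ih => rw [Function.iterate_succ_apply', ih, hE', Function.iterate_succ_apply']
  have h1 : wr (δ⁻¹ • E) (fun i => algebraMap M K (f i)) = algebraMap M K (wr D0 f) := by
    unfold wr
    rw [RingHom.map_det]
    congr 1
    ext i r
    exact hit r (f i)
  have h2 := wr_change (δ⁻¹ • E) δ 1 (fun i => algebraMap M K (f i))
  rw [smul_smul, mul_inv_cancel₀ hδ, one_smul] at h2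
  simp only [one_mul, mul_one] at h2
  rw [h2, h1, Finset.prod_pow_eq_pow_sum]
  unfold tn
  ring

omit [Algebra L K] [IsScalarTower L M K] in
theorem eta_compare {m : ℕ} (D0 : Derivation L M M) (E : Derivation k K K) {δ : K} (hδ : δ ≠ 0)
    (h : ∀ x : M, E (algebraMap M K x) = δ * algebraMap M K (D0 x)) (T : Fin (m + 1) → M) :
    eta E (fun i => algebraMap M K (T i)) = δ ^ (tn m) * algebraMap M K (eta D0 T) := by
  unfold eta
  rw [wr_compare D0 E hδ h, map_div₀, map_prod]
  ring

/-- A regular vector field which is tangent to the fibres of a morphism is logarithmic at the prime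
divisors which do not dominate the base. -/
theorem log_of_vertical [CharZero k] {P : Place k K} {D : Derivation k K K} (hD : DerReg P D)
    {x : K} (hx : D x = 0) (hxP : P.ord x ≠ 0) : DerLog P D := by
  have hπ := ord_unif P
  have hx0 : x ≠ 0 := by
    rintro rfl
    exact hxP P.ord_zero
  obtain ⟨u, hu, hu0, -, h1⟩ := logder_eq P D hπ hx0
  rw [hx, zero_div] at h1
  have hKc : CharZero K := charZero_of_injective_algebraMap (algebraMap k K).injective
  have hn : (P.ord x : K) ≠ 0 := by exact_mod_cast hxP
  have h2 : D (unif P) / unif P = algebraMap k K (-(P.ord x : k)⁻¹) * (D u / u) := by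
    rw [map_neg, map_inv₀, map_intCast]
    have h3 : (P.ord x : K) * (D (unif P) / unif P) = - (D u / u) := by linear_combination -h1
    rw [neg_mul, ← mul_neg, ← h3, ← mul_assoc, inv_mul_cancel₀ hn, one_mul]
  have h3 : Ge P 0 (D (unif P) / unif P) := by
    rw [h2]
    simpa using (Ge.const (P := P) (-(P.ord x : k)⁻¹)).mul (ge_logder_reg hD hu hu0)
  intro f
  by_cases hf : f = 0
  · rw [hf, map_zero, zero_div]
    exact P.reg_zero
  obtain ⟨v, hv, hv0, -, h4⟩ := logder_eq P D hπ hf
  rw [h4, reg_iff_ge]
  refine (ge_logder_reg hD hv hv0).add ?_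
  simpa using (Ge.intCast (P := P) (P.ord f)).mul h3

end Pool.Agent.T9h4.TW
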