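import Pool.Agent.T9h4.TW.Flow2

/-!
Pseudo-effectivity, nonvanishing and general type for components of systems of high powers, with
bounds which do not depend on the dimension.
-/

set_option autoImplicit false

open FF Pool.Agent.W603.LV Pool.Agent.W602.GT

namespace Pool.Agent.T9h4.TW

theorem tn_eq (s : ℕ) : tn (s - 1) = (s - 1) * (s - 2) / 2 := by
  unfold tn
  rw [Fin.sum_univ_eq_sum_range (fun i => i), Finset.sum_range_id, Nat.sub_sub]

/-- **The dichotomy.** -/
theorem dichotomy {k : Type} [Field k] [CharZero k] [IsAlgClosed k] {n : ℕ} {ι : Type}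
    {F : ι → MvPolynomial (Fin (n + 1)) k} {s N : ι → ℕ}
    (hF : (∀ e, IsPowSum (s e) (N e) (F e)) ∨ (∀ e, IsPowSparse ∅ (s e) (N e) (F e)))
    (hN1 : ∀ e, 1 ≤ N e) (hN : ∀ e, s e * ((s e - 1) * (s e - 2) / 2) ≤ N e)
    {K : Type} [Field K] [Algebra k K] {w : ℕ} {y : Fin (n + 1) → K}
    (hy : SubVar F K w y) (hcomp : IsComponent F y) :
    (¬ Psef k K w (fun _ => False) ∧ Ruled k K) ∨
    (Psef k K w (fun _ => False) ∧ KodGe k K w (fun _ => False) 0 ∧
      ((∀ e, s e * ((s e - 1) * (s e - 2) / 2) < N e) → GeneralType k K w)) := by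
  by_cases hk : KodGe k K w (fun _ => False) 0
  · have hp : Psef k K w (fun _ => False) := psef_of_kodGe hk
    refine Or.inr ⟨hp, hk, fun hs => ?_⟩
    by_contra hgt
    obtain ⟨C, σ, h1, h2⟩ := ruled_of hF hN1 hy hcomp
      (dich_general hy.dim (s := s) (N := N) fun e => by rw [tn_eq]; exact hs e) hgt
    exact not_psef_of hy.dim C h1 h2 hp
  · obtain ⟨C, σ, h1, h2⟩ := ruled_of hF hN1 hy hcomp
      (dich_kod hy.dim (s := s) (N := N) fun e => by rw [tn_eq]; exact hN e) hk
    exact Or.inl ⟨not_psef_of hy.dim C h1 h2, C, σ, h1, h2⟩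

end Pool.Agent.T9h4.TW
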