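import Pool.Agent.T9h4.TW.Sys2
import Pool.Agent.W602.GT.KGen

/-!
Systems of high powers: flows on the components on which the ratios are constant.
-/

set_option autoImplicit false

open IntermediateField hiding val
open FF Pool.Agent.W603.LV Pool.Agent.W602.GT MvPolynomial

namespace Pool.Agent.T9h4.TW

/-- a dichotomy for systems of sums with large jumps -/
def Dich (k K : Type) [Field k] [Field K] [Algebra k K] {ι : Type} (s N : ι → ℕ) (X : Prop) :
    Prop :=
  ∀ (J : ι → Type) (_ : ∀ e, Fintype (J e)) (g : ∀ e, J e → K), (∀ e j, g e j ≠ 0) →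
    (∀ e, ∑ j, g e j = 0) → (∀ e, Fintype.card (J e) ≤ s e) →
    (∀ (P : Place k K) (e : ι) (i j : J e), P.ord (g e i) = P.ord (g e j) ∨
      (N e : ℤ) ≤ |P.ord (g e i) - P.ord (g e j)|) → X ∨ Split (k := k) g

section

variable {k K : Type} [Field k] [Field K] [Algebra k K] [IsAlgClosed k] [CharZero k] {ι : Type}

theorem tn_le {a b : ℕ} (h : a ≤ b) : a * tn (a - 1) ≤ b * tn (b - 1) :=
  Nat.mul_le_mul h (tn_mono (by omega))

theorem dich_kod {w : ℕ} (htr : Algebra.trdeg k K = w) {s N : ι → ℕ}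
    (hN : ∀ e, s e * tn (s e - 1) ≤ N e) :
    Dich k K s N (KodGe k K w (fun _ => False) 0) := by
  intro J _ g hg hsum hs hjump
  exact system_kod htr g hg hsum N (fun _ => False) (fun P _ => hjump P)
    fun e => (tn_le (hs e)).trans (hN e)

theorem dich_general {w : ℕ} (htr : Algebra.trdeg k K = w) {s N : ι → ℕ}
    (hN : ∀ e, s e * tn (s e - 1) < N e) : Dich k K s N (GeneralType k K w) := by
  intro J _ g hg hsum hs hjump
  rcases system_general htr g hg hsum N (fun _ => False) (fun P _ => hjump P)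
    (fun e => (tn_le (hs e)).trans_lt (hN e)) with h | h
  · exact Or.inl (general_of_log h)
  · exact Or.inr h

end

variable {k : Type} [Field k] {n : ℕ} {ι : Type}

/-- the linear space spanned by the translates -/
theorem waring_pi2 [IsAlgClosed k] [CharZero k] {K : Type} [Field K] [Algebra k K]
    {F : ι → MvPolynomial (Fin (n + 1)) k}
    {s N : ι → ℕ} (hF : ∀ e, IsPowSum (s e) (N e) (F e)) (hN1 : ∀ e, 1 ≤ N e)
    {X : Prop} (hX : Dich k K s N X) {y : Fin (n + 1) → K}
    (hgen : Algebra.IsAlgebraic (coords k y) K) (hyF : ∀ e, val y (F e) = 0)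
    (hgt : ¬ X) :
    ∃ (D : Derivation k K K) (Z : Set (Fin (n + 1) → k))
      (Q : Set ((Fin (n + 1) → k) × (Fin (n + 1) → k))), D ≠ 0 ∧ (∀ l ∈ Z, lin l y = 0) ∧
      (∀ p ∈ Q, lin p.1 y ≠ 0 ∧ lin p.2 y ≠ 0 ∧ D (lin p.1 y / lin p.2 y) = 0) ∧
      ∀ (M : Type) [Field M] [Algebra k M] [Algebra K M] [IsScalarTower k K M]
        (x : Fin (n + 1) → M), (∀ l ∈ Z, lin l x = 0) →
        (∀ p ∈ Q, lin p.1 x = algebraMap K M (lin p.1 y / lin p.2 y) * lin p.2 x) →
        ∀ e, val x (F e) = 0 := by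
  classical
  choose r d l hr hd hFe using hF
  have hK : CharZero K := charZero_of_injective_algebraMap (algebraMap k K).injective
  let L : ∀ e, Fin (r e) → (Fin (n + 1) → K) → K := fun e j x => lin (l e j) x
  have hvalM : ∀ (M : Type) [Field M] [Algebra k M] (x : Fin (n + 1) → M) e,
      val x (F e) = ∑ j, lin (l e j) x ^ d e := by
    intro M _ _ x e
    unfold val
    rw [hFe e, map_sum]
    refine Finset.sum_congr rfl fun j _ => ?_
    rw [map_pow, map_sum]
    simp only [map_mul, MvPolynomial.aeval_C, MvPolynomial.aeval_X]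
    rfl
  have hval : ∀ (x : Fin (n + 1) → K) e, val x (F e) = ∑ j, L e j x ^ d e := hvalM K
  have hd0 : ∀ e, 0 < d e := fun e => lt_of_lt_of_le (hN1 e) (hd e)
  let J : ι → Type := fun e => {j : Fin (r e) // L e j y ≠ 0}
  let g : ∀ e, J e → K := fun e j => L e j.1 y ^ d e
  have hg : ∀ e j, g e j ≠ 0 := fun e j => pow_ne_zero _ j.2
  have hsub : ∀ (M : Type) [Field M] (e : ι) (f : Fin (r e) → M), (∀ j, L e j y = 0 → f j = 0) →
      ∑ j, f j = ∑ j : J e, f j.1 := by
    intro M _ e f hf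
    rw [← Finset.sum_subtype (Finset.univ.filter fun j => L e j y ≠ 0) (by simp) f]
    rw [Finset.sum_filter_of_ne]
    intro j _ hj h0
    exact hj (hf j h0)
  have hsum : ∀ e, ∑ j, g e j = 0 := by
    intro e
    rw [← hsub K e (fun j => L e j y ^ d e) (fun j hj => by rw [hj, zero_pow (hd0 e).ne']), ← hval]
    exact hyF e
  have hcard : ∀ e, Fintype.card (J e) ≤ s e := fun e =>
    (Fintype.card_subtype_le _).trans (by rw [Fintype.card_fin]; exact hr e)
  have hjump : ∀ (P : Place k K) (e : ι) (i j : J e), P.ord (g e i) = P.ord (g e j) ∨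
      (N e : ℤ) ≤ |P.ord (g e i) - P.ord (g e j)| := by
    intro P e i j
    change P.ord (L e i.1 y ^ d e) = P.ord (L e j.1 y ^ d e) ∨
      _ ≤ |P.ord (L e i.1 y ^ d e) - P.ord (L e j.1 y ^ d e)|
    rw [P.ord_pow, P.ord_pow]
    by_cases h : P.ord (L e i.1 y) = P.ord (L e j.1 y)
    · left; rw [h]
    · right
      rw [← mul_sub, abs_mul, Nat.abs_cast]
      have h1 : (1 : ℤ) ≤ |P.ord (L e i.1 y) - P.ord (L e j.1 y)| :=
        Int.one_le_abs (sub_ne_zero.2 h)
      have h3 : ((N e : ℕ) : ℤ) ≤ d e := by exact_mod_cast hd e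
      have h4 : (0 : ℤ) ≤ d e := by positivity
      nlinarith
  rcases hX J (fun e => inferInstance) g hg hsum hcard hjump with h | ⟨D, hD, hR⟩
  · exact absurd h hgt
  choose R hRe hRD hRs using hR
  refine ⟨D, {z | ∃ e j, L e j y = 0 ∧ z = l e j},
    {p | ∃ (e : ι) (i j : J e), R e i j ∧ p = (l e i.1, l e j.1)}, hD, ?_, ?_, ?_⟩
  · rintro z ⟨e, j, hj, rfl⟩
    exact hj
  · rintro p ⟨e, i, j, hij, rfl⟩
    have h2 := hRD e i j hij
    have hi := i.2
    have hj := j.2
    refine ⟨hi, hj, ?_⟩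
    have hde : (d e : K) ≠ 0 := by exact_mod_cast (hd0 e).ne'
    change D (L e i.1 y ^ d e) * L e j.1 y ^ d e = L e i.1 y ^ d e * D (L e j.1 y ^ d e) at h2
    have hpow : ∀ x : K, x ≠ 0 → D (x ^ d e) = d e * x ^ d e * (D x / x) := by
      intro x hx
      rw [D.leibniz_pow]
      obtain ⟨q, hq⟩ : ∃ q, d e = q + 1 := ⟨d e - 1, by have := hd0 e; omega⟩
      rw [hq]
      simp only [nsmul_eq_mul, smul_eq_mul, Nat.add_sub_cancel]
      field_simp
      ring
    rw [hpow _ hi, hpow _ hj] at h2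
    have h3 : D (L e i.1 y) / L e i.1 y = D (L e j.1 y) / L e j.1 y := by
      have h4 : (d e : K) * L e i.1 y ^ d e * L e j.1 y ^ d e ≠ 0 :=
        mul_ne_zero (mul_ne_zero hde (pow_ne_zero _ hi)) (pow_ne_zero _ hj)
      apply mul_left_cancel₀ h4
      linear_combination h2
    change D (L e i.1 y / L e j.1 y) = 0
    rw [div_eq_mul_inv, D.leibniz, D.leibniz_inv]
    simp only [smul_eq_mul]
    field_simp at h3 ⊢
    linear_combination h3
  · intro M _ _ _ _ x hZ hQ e
    rw [hvalM, hsub M e (fun j => lin (l e j) x ^ d e) (fun j hj => by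
      rw [hZ _ ⟨e, j, hj, rfl⟩, zero_pow (hd0 e).ne'])]
    have hy0 : ∀ j : J e, algebraMap K M (L e j.1 y) ≠ 0 := fun j => by
      rw [Ne, map_eq_zero]
      exact j.2
    have h1 := weighted_sum (R e) (hRe e) (fun j : J e => algebraMap K M (g e j))
      (fun j => (lin (l e j.1) x / algebraMap K M (L e j.1 y)) ^ d e)
      (fun i j hij => by
        have h2 := hQ _ ⟨e, i, j, hij, rfl⟩
        change lin (l e i.1) x = algebraMap K M (L e i.1 y / L e j.1 y) * lin (l e j.1) x at h2
        rw [map_div₀] at h2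
        have := hy0 i
        have := hy0 j
        congr 1
        rw [h2]
        field_simp)
      (fun j0 A hA => by
        rw [← map_sum, hRs e j0 A hA, map_zero])
    refine Eq.trans (Finset.sum_congr rfl fun j _ => ?_) h1
    have := hy0 j
    change _ = _ * algebraMap K M (L e j.1 y ^ d e)
    rw [map_pow, ← mul_pow]
    congr 1
    field_simp

/-- **Sparse systems.** A subvariety of the open part `x_j ≠ 0` (`j` in `U`) of a variety given by
forms with few monomials and large exponents outside `U` is of log general type, or the variety is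
preserved at its generic point by a diagonal one-parameter group. -/
theorem sparse2 [IsAlgClosed k] [CharZero k] {K : Type} [Field K] [Algebra k K]
    {F : ι → MvPolynomial (Fin (n + 1)) k} {s N : ι → ℕ}
    (hF : ∀ e, IsPowSparse ∅ (s e) (N e) (F e)) {X : Prop} (hX : Dich k K s N X)
    {y : Fin (n + 1) → K}
    (hgen : Algebra.IsAlgebraic (coords k y) K) (hyF : ∀ e, val y (F e) = 0) (hgt : ¬ X) :
    ∃ (b : Fin (n + 1) → ℤ) (i i' : Fin (n + 1)), y i ≠ 0 ∧ y i' ≠ 0 ∧ b i ≠ b i' ∧
      ∀ e v, val y (wc b v (F e)) = 0 := by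
  classical
  have hK : CharZero K := charZero_of_injective_algebraMap (algebraMap k K).injective
  let T : ∀ e, (Fin (n + 1) →₀ ℕ) → K := fun e α => algebraMap k K ((F e).coeff α) * ∏ j, y j ^ α j
  let J : ι → Type := fun e => {α : (F e).support // T e α ≠ 0}
  let g : ∀ e, J e → K := fun e α => T e α.1
  have hg : ∀ e j, g e j ≠ 0 := fun e j => j.2
  have hsub : ∀ (e : ι) (h : (Fin (n + 1) →₀ ℕ) → K), ∑ α ∈ (F e).support, h α * T e α =
      ∑ α : J e, h α.1 * g e α := by
    intro e h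
    rw [← Finset.sum_coe_sort (F e).support (fun α => h α * T e α)]
    rw [← Finset.sum_subtype (Finset.univ.filter fun α : (F e).support => T e α ≠ 0) (by simp)
      (fun α : (F e).support => h α * T e α), Finset.sum_filter_of_ne]
    intro α _ hα h0
    exact hα (by rw [h0, mul_zero])
  have hsum : ∀ e, ∑ j, g e j = 0 := by
    intro e
    have h1 := hsub e (fun _ => 1)
    simp only [one_mul] at h1
    rw [← h1, ← val_eq_sum]
    exact hyF e
  have hcard : ∀ e, Fintype.card (J e) ≤ s e := fun e =>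
    (Fintype.card_subtype_le _).trans (by rw [Fintype.card_coe]; exact (hF e).2.1)
  have hjump : ∀ (P : Place k K) (e : ι) (α β : J e),
      P.ord (g e α) = P.ord (g e β) ∨
      (N e : ℤ) ≤ |P.ord (g e α) - P.ord (g e β)| := by
    intro P e α β
    obtain ⟨⟨d, hd⟩, -, N', hN', hdvd⟩ := hF e
    have h1 : P.ord (g e α) - P.ord (g e β) =
        ∑ j, (((α.1 : Fin (n + 1) →₀ ℕ) j : ℤ) - ((β.1 : Fin (n + 1) →₀ ℕ) j : ℤ)) *
          P.ord (y j) := by
      change P.ord (T e α.1) - P.ord (T e β.1) = _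
      rw [ord_mon P α.2, ord_mon P β.2, ← Finset.sum_sub_distrib]
      exact Finset.sum_congr rfl fun j _ => by ring
    have h2 : (N' : ℤ) ∣ P.ord (g e α) - P.ord (g e β) := by
      rw [h1]
      refine Finset.dvd_sum fun j _ => ?_
      refine Dvd.dvd.mul_right (dvd_sub ?_ ?_) _
      · exact_mod_cast hdvd _ α.1.2 j (Set.notMem_empty j)
      · exact_mod_cast hdvd _ β.1.2 j (Set.notMem_empty j)
    by_cases h : P.ord (g e α) = P.ord (g e β)
    · exact Or.inl h
    · right
      have h4 : (N e : ℤ) ≤ N' := by exact_mod_cast hN'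
      refine h4.trans ?_
      exact Int.le_of_dvd (abs_pos.2 (sub_ne_zero.2 h)) ((dvd_abs _ _).2 h2)
  rcases hX J (fun e => inferInstance) g hg hsum hcard hjump with h | ⟨D, hD, hR⟩
  · exact absurd h hgt
  obtain ⟨i, i', hii⟩ := moves hgen hD
  have hyi : y i ≠ 0 := by
    intro h0
    apply hii
    rw [h0, map_zero]
    ring
  have hyi' : y i' ≠ 0 := by
    intro h0
    apply hii
    rw [h0, map_zero]
    ring
  have hlam : D (y i) / y i ≠ D (y i') / y i' := by
    intro h0
    apply hii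
    field_simp at h0
    linear_combination -h0
  obtain ⟨b, hb, hb2⟩ := int_weights (fun j => D (y j) / y j) hlam
  refine ⟨b, i, i', hyi, hyi', hb, fun e v => ?_⟩
  obtain ⟨R, hRe, hRD, hRs⟩ := hR e
  rw [val_wc, Finset.sum_filter]
  have h1 := hsub e (fun α => if ∑ j, (α j : ℤ) * b j = v then 1 else 0)
  simp only [ite_mul, one_mul, zero_mul] at h1
  rw [h1]
  have h2 := weighted_sum R hRe (g e)
    (fun α => if ∑ j, ((α.1 : Fin (n + 1) →₀ ℕ) j : ℤ) * b j = v then 1 else 0) ?_ hRs
  · simpa only [ite_mul, one_mul, zero_mul] using h2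
  · intro α β hαβ
    have h3 := hRD α β hαβ
    change D (T e α.1) * T e β.1 = T e α.1 * D (T e β.1) at h3
    rw [der_mon D α.2, der_mon D β.2] at h3
    have h4 : ∑ j, ((α.1 : Fin (n + 1) →₀ ℕ) j : K) * (D (y j) / y j) =
        ∑ j, ((β.1 : Fin (n + 1) →₀ ℕ) j : K) * (D (y j) / y j) := by
      apply mul_left_cancel₀ (mul_ne_zero α.2 β.2)
      linear_combination h3
    have h5 := hb2 (fun j => ((α.1 : Fin (n + 1) →₀ ℕ) j : ℤ) - ((β.1 : Fin (n + 1) →₀ ℕ) j : ℤ)) (by
      push_cast
      simp only [sub_mul, Finset.sum_sub_distrib]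
      rw [h4, sub_self])
    simp only [sub_mul, Finset.sum_sub_distrib] at h5
    rw [sub_eq_zero.1 h5]

/-- Components on which some vector field has constant ratios are ruled. -/
theorem ruled_of {k : Type} [Field k] [CharZero k] [IsAlgClosed k] {n : ℕ} {ι : Type}
    {F : ι → MvPolynomial (Fin (n + 1)) k} {s N : ι → ℕ}
    (hF : (∀ e, IsPowSum (s e) (N e) (F e)) ∨ (∀ e, IsPowSparse ∅ (s e) (N e) (F e)))
    (hN1 : ∀ e, 1 ≤ N e) {K : Type} [Field K] [Algebra k K] {w : ℕ} {y : Fin (n + 1) → K}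
    (hy : SubVar F K w y) (hcomp : IsComponent F y) {X : Prop} (hX : Dich k K s N X)
    (hgt : ¬ X) : ∃ (C : IntermediateField k K) (σ : K), Transcendental C σ ∧ C⟮σ⟯ = ⊤ := by
  have hgen : Algebra.IsAlgebraic (coords k y) K := by
    rw [hy.gen]
    infer_instance
  rcases hF with h | h
  · obtain ⟨D, Z, Q, hD, hZ, hQ, hx⟩ := waring_pi2 h hN1 hX hgen hy.mem hgt
    obtain ⟨C, i0, j0, -, h1, h2, -⟩ := flow_of_pi hy hcomp D Z Q hD hZ hQ hx
    exact ⟨C, _, h1, h2⟩
  · obtain ⟨b, i, i', hi, hi', hb, hwc⟩ := sparse2 h hX hgen hy.mem hgt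
    have hyU : SubVarU ∅ F K w y :=
      ⟨hy.ne, fun j hj => absurd hj (Set.notMem_empty j), hy.mem, hy.gen, hy.dim⟩
    have hcompU : IsComponentU ∅ F y := by
      obtain ⟨H, hH, hHy, hcone⟩ := hcomp
      exact ⟨H, hH, hHy, fun x hx hxH => hcone x (mem_cone_empty hx) hxH⟩
    obtain ⟨δ, σ, -, -, hσ0, hσ, htop, -⟩ := exists_delta hy.gen b hi hi' hb
      (fun G hG h0 v => ideal_hom hyU hcompU hwc G hG h0 v)
    refine ⟨consts δ, σ, ?_, htop⟩
    intro halg
    have h1 : Algebra.IsAlgebraic (consts δ) K := by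
      have h2 : Algebra.IsAlgebraic (consts δ) (consts δ)⟮σ⟯ :=
        IntermediateField.isAlgebraic_adjoin_simple halg.isIntegral
      constructor
      intro z
      have h3 := h2.isAlgebraic (⟨z, by rw [htop]; exact IntermediateField.mem_top⟩ : (consts δ)⟮σ⟯)
      exact h3.algebraMap (A := K)
    have h2 : Algebra.IsAlgebraic (IntermediateField.adjoin k (consts δ : Set K)) K := by
      rw [IntermediateField.adjoin_self]
      exact h1
    have h3 := der_eq_zero δ _ h2 (fun s hs => hs)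
    rw [h3] at hσ
    exact hσ0 hσ.symm

end Pool.Agent.T9h4.TW
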