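import Pool.Agent.T9h4.TW.Rows

/-!
Composition of relative pluricanonical forms.
-/

set_option autoImplicit false

open FF Pool.Agent.W603.LV Pool.Agent.W602.GT

namespace Pool.Agent.T9h4.TW

variable {k K : Type} [Field k] [Field K] [Algebra k K]

/-- relative pluricanonical forms of `K` over `L` with good local properties -/
def Good (Bd : Place k K → Prop) (L : IntermediateField k K) {ι : Type} [Fintype ι]
    [DecidableEq ι] (t : ι → K) (N : ℕ) (g : K) : Prop :=
  ∀ (P : Place k K) (D : ι → Derivation k K K), (∀ i, ∀ x ∈ L, D i x = 0) →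
    ((∀ i, DerLog P (D i)) ∨ (¬ Bd P ∧ ∀ i, DerReg P (D i))) →
    P.Reg (g * (Matrix.of fun i j => D i (t j)).det ^ N)

section

variable {Bd : Place k K → Prop} {L : IntermediateField k K} {ι : Type} [Fintype ι]
  [DecidableEq ι] {t : ι → K} {N N' : ℕ} {g g' : K}

theorem Good.mul (h : Good Bd L t N g) (h' : Good Bd L t N' g') :
    Good Bd L t (N + N') (g * g') := by
  intro P D hD hc
  have h1 := P.reg_mul (h P D hD hc) (h' P D hD hc)
  have e : g * (Matrix.of fun i j => D i (t j)).det ^ N *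
      (g' * (Matrix.of fun i j => D i (t j)).det ^ N') =
      g * g' * (Matrix.of fun i j => D i (t j)).det ^ (N + N') := by ring
  rwa [e] at h1

theorem good_one : Good Bd L t 0 1 := by
  intro P D _ _
  rw [pow_zero, mul_one]
  exact P.reg_one

theorem Good.pow (h : Good Bd L t N g) (r : ℕ) : Good Bd L t (N * r) (g ^ r) := by
  induction r with
  | zero =>
    rw [Nat.mul_zero, pow_zero]
    exact good_one
  | succ r ih =>
    have h1 := ih.mul h
    rwa [← pow_succ, ← Nat.mul_succ] at h1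

end

theorem sum_der_apply {ι : Type} (s : Finset ι) (c : ι → K) (D : ι → Derivation k K K) (f : K) :
    (∑ i ∈ s, c i • D i) f = ∑ i ∈ s, c i * D i f := by
  classical
  induction s using Finset.induction_on with
  | empty => simp
  | insert i s hi ih =>
    rw [Finset.sum_insert hi, Finset.sum_insert hi, Derivation.add_apply, ih]
    rfl

theorem derReg_comb {P : Place k K} {ι : Type} (s : Finset ι) {c : ι → K}
    (hc : ∀ i, P.Reg (c i)) {D0 : Derivation k K K} (h0 : DerReg P D0)
    {D : ι → Derivation k K K} (hD : ∀ i, DerReg P (D i)) :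
    DerReg P (D0 - ∑ i ∈ s, c i • D i) := by
  intro f hf
  rw [Derivation.sub_apply, sum_der_apply, reg_iff_ge]
  refine Ge.sub (h0 f hf) (Ge.sum _ _ fun i _ => ?_)
  exact P.reg_mul (hc i) (hD i f hf)

theorem derLog_comb {P : Place k K} {ι : Type} (s : Finset ι) {c : ι → K}
    (hc : ∀ i, P.Reg (c i)) {D0 : Derivation k K K} (h0 : DerLog P D0)
    {D : ι → Derivation k K K} (hD : ∀ i, DerLog P (D i)) :
    DerLog P (D0 - ∑ i ∈ s, c i • D i) := by
  intro f
  rw [Derivation.sub_apply, sum_der_apply, reg_iff_ge, sub_div, Finset.sum_div]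
  refine Ge.sub (h0 f) (Ge.sum _ _ fun i _ => ?_)
  rw [mul_div_assoc]
  exact P.reg_mul (hc i) (hD i f)

/-- **Composition.** -/
theorem Good.comp {Bd : Place k K → Prop} {L M : IntermediateField k K}
    {ι₁ ι₂ : Type} [Fintype ι₁] [DecidableEq ι₁] [Fintype ι₂] [DecidableEq ι₂]
    {t1 : ι₁ → K} {t2 : ι₂ → K} {N : ℕ} {g1 g2 : K} (hN : 0 < N)
    (hM : ∀ D : Derivation k K K, (∀ x ∈ L, D x = 0) → (∀ i, D (t1 i) = 0) → ∀ x ∈ M, D x = 0)
    (h1 : Good Bd L t1 N g1) (h2 : Good Bd M t2 N g2) :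
    Good Bd L (Sum.elim t1 t2) N (g1 * g2) := by
  classical
  intro P D hD hc
  set F : Matrix (ι₁ ⊕ ι₂) (ι₁ ⊕ ι₂) K := Matrix.of fun i j => D i (Sum.elim t1 t2 j) with hF
  by_cases hdet : F.det = 0
  · rw [hdet, zero_pow hN.ne', mul_zero]
    exact P.reg_zero
  obtain ⟨σ, C, hC, hrel⟩ := exists_rows P F hdet
  let D1 : ι₁ → Derivation k K K := fun i => D (σ (Sum.inl i))
  let D2 : ι₂ → Derivation k K K := fun i =>
    D (σ (Sum.inr i)) - ∑ l, C i l • D (σ (Sum.inl l))
  have hD2 : ∀ i f, D2 i f = D (σ (Sum.inr i)) f - ∑ l, C i l * D (σ (Sum.inl l)) f := by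
    intro i f
    simp only [D2]
    rw [Derivation.sub_apply, sum_der_apply]
  have hD2L : ∀ i, ∀ x ∈ L, D2 i x = 0 := by
    intro i x hx
    rw [hD2, hD _ x hx, zero_sub, neg_eq_zero]
    exact Finset.sum_eq_zero fun l _ => by rw [hD _ x hx, mul_zero]
  have hD2t : ∀ i j, D2 i (t1 j) = 0 := by
    intro i j
    rw [hD2]
    have := hrel i j
    simp only [hF, Matrix.of_apply, Sum.elim_inl] at this
    rw [this, sub_self]
  have hD2M : ∀ i, ∀ x ∈ M, D2 i x = 0 := fun i => hM (D2 i) (hD2L i) (hD2t i)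
  have hr1 := h1 P D1 (fun i => hD _) (by
    rcases hc with h | ⟨hb, h⟩
    · exact Or.inl fun i => h _
    · exact Or.inr ⟨hb, fun i => h _⟩)
  have hr2 := h2 P D2 hD2M (by
    rcases hc with h | ⟨hb, h⟩
    · exact Or.inl fun i => derLog_comb _ (hC i) (h _) fun l => h _
    · exact Or.inr ⟨hb, fun i => derReg_comb _ (hC i) (h _) fun l => h _⟩)
  have hprod := P.reg_mul hr1 hr2
  -- the determinants
  let F2 : Matrix (ι₁ ⊕ ι₂) (ι₁ ⊕ ι₂) K := Matrix.fromBlocks
    (Matrix.of fun i j => D1 i (t1 j)) (Matrix.of fun i j => D1 i (t2 j)) 0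
    (Matrix.of fun i j => D2 i (t2 j))
  have hF2 : F2.det = (Matrix.of fun i j => D1 i (t1 j)).det *
      (Matrix.of fun i j => D2 i (t2 j)).det := Matrix.det_fromBlocks_zero₂₁ _ _ _
  let U : Matrix (ι₁ ⊕ ι₂) (ι₁ ⊕ ι₂) K := Matrix.fromBlocks 1 0 (Matrix.of fun i l => - C i l) 1
  have hU : U.det = 1 := by
    simp only [U]
    rw [Matrix.det_fromBlocks_zero₁₂, Matrix.det_one, Matrix.det_one, mul_one]
  have hmul : F2 = U * F.submatrix σ id := by
    have hfb : F.submatrix σ id = Matrix.fromBlocks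
        (Matrix.of fun i j => D (σ (Sum.inl i)) (t1 j)) (Matrix.of fun i j => D (σ (Sum.inl i)) (t2 j))
        (Matrix.of fun i j => D (σ (Sum.inr i)) (t1 j))
        (Matrix.of fun i j => D (σ (Sum.inr i)) (t2 j)) := by
      ext i j
      rcases i with i | i <;> rcases j with j | j <;> rfl
    rw [hfb]
    simp only [U, F2]
    rw [Matrix.fromBlocks_multiply]
    congr 1
    · simp only [Matrix.one_mul, Matrix.zero_mul, add_zero, D1]
    · simp only [Matrix.one_mul, Matrix.zero_mul, add_zero, D1]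
    · ext i j
      simp only [Matrix.one_mul, Matrix.add_apply, Matrix.mul_apply, Matrix.of_apply,
        Matrix.zero_apply]
      have := hrel i j
      simp only [hF, Matrix.of_apply, Sum.elim_inl] at this
      rw [this, ← Finset.sum_add_distrib]
      refine (Finset.sum_eq_zero fun l _ => ?_).symm
      ring
    · ext i j
      simp only [Matrix.one_mul, Matrix.add_apply, Matrix.mul_apply, Matrix.of_apply]
      rw [hD2, sub_eq_add_neg, add_comm, ← Finset.sum_neg_distrib]
      congr 1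
      exact Finset.sum_congr rfl fun l _ => by ring
  have hdet2 : F2.det = F.det ∨ F2.det = - F.det := by
    rw [hmul, Matrix.det_mul, hU, one_mul, Matrix.det_permute]
    rcases Int.units_eq_one_or (Equiv.Perm.sign σ) with h | h
    · left; rw [h]; simp
    · right; rw [h]; simp
  have e1 : g1 * (Matrix.of fun i j => D1 i (t1 j)).det ^ N *
      (g2 * (Matrix.of fun i j => D2 i (t2 j)).det ^ N) = g1 * g2 * F2.det ^ N := by
    rw [hF2]
    ring
  rw [e1] at hprod
  rcases hdet2 with h | h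
  · rw [h] at hprod
    exact hprod
  · rw [h] at hprod
    rcases neg_one_pow_eq_or K N with h' | h'
    · rw [neg_pow, h', one_mul] at hprod
      exact hprod
    · rw [neg_pow, h', neg_one_mul, mul_neg] at hprod
      exact ge_neg_iff hprod

end Pool.Agent.T9h4.TW
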