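import Pool.Agent.T9h4.TW.Good

/-!
Intermediate fields which are generated, up to algebraic elements, by a finite family.
-/

set_option autoImplicit false

open FF Pool.Agent.W603.LV Pool.Agent.W602.GT

namespace Pool.Agent.T9h4.TW

variable {k K : Type} [Field k] [Field K] [Algebra k K]

open IntermediateField.algebraAdjoinAdjoin in
theorem alg_adjoin_iff {L : Type} [Field L] [Algebra L K] (B : Set K) (x : K) :
    IsAlgebraic (IntermediateField.adjoin L B) x ↔ IsAlgebraic (Algebra.adjoin L B) x :=
  (IsFractionRing.isAlgebraic_iff (Algebra.adjoin L B) (IntermediateField.adjoin L B) K).symm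

theorem pick [CharZero k] (L : IntermediateField k K) {m : ℕ} (r : Fin (m + 1) → K) :
    ∃ (w : ℕ) (f : Fin w → Fin (m + 1)) (M : IntermediateField L K) (t : Fin w → M),
      (∀ i, (t i : K) = r (f i)) ∧ IsTranscendenceBasis L t ∧ (∀ l, r l ∈ M) ∧
      (∀ x : K, IsAlgebraic M x → x ∈ M) ∧
      ∀ D : Derivation k K K, (∀ x ∈ L, D x = 0) → (∀ i, D (r (f i)) = 0) → ∀ x ∈ M, D x = 0 := by
  classical
  obtain ⟨B, -, ⟨hB, hBS⟩, hmax⟩ := exists_maximal_algebraicIndependent (R := L) (A := K) ∅
    (Set.range r) (Set.empty_subset _)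
    ((algebraicIndependent_empty_iff L K).2 (algebraMap L K).injective)
  have hfin : Finite B := ((Set.finite_range r).subset hBS).to_subtype
  obtain ⟨w, ⟨φ⟩⟩ := Finite.exists_equiv_fin B
  have hf : ∀ i : Fin w, ∃ l, r l = (φ.symm i : K) := fun i => hBS (φ.symm i).2
  choose f hf using hf
  let A : IntermediateField L K := IntermediateField.adjoin L B
  let M : IntermediateField L K := (algebraicClosure A K).restrictScalars L
  have hMA : ∀ x : K, x ∈ M ↔ IsAlgebraic A x := fun x => mem_algebraicClosure_iff
  have hBA : ∀ x ∈ B, x ∈ M := fun x hx => by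
    rw [hMA]
    exact isAlgebraic_algebraMap (⟨x, IntermediateField.subset_adjoin L B hx⟩ : A)
  have hAadj : ∀ x : K, IsAlgebraic A x ↔ IsAlgebraic (Algebra.adjoin L B) x := fun x =>
    alg_adjoin_iff B x
  have hrM : ∀ l, r l ∈ M := by
    intro l
    by_cases hl : r l ∈ B
    · exact hBA _ hl
    · have h1 : ¬ AlgebraicIndepOn L id (insert (r l) B) := by
        intro h2
        have h3 := hmax ⟨h2, Set.insert_subset ⟨l, rfl⟩ hBS⟩ (Set.subset_insert (r l) B)
        exact hl (h3 (Set.mem_insert (r l) B))
      have h2 : IsAlgebraic (Algebra.adjoin L (id '' B)) (r l) := by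
        by_contra h3
        exact h1 (AlgebraicIndepOn.insert (i := r l) hB h3)
      rw [Set.image_id] at h2
      rw [hMA, hAadj]
      exact h2
  let t : Fin w → M := fun i => ⟨φ.symm i, hBA _ (φ.symm i).2⟩
  have htv : (fun i => (t i : K)) = (Subtype.val : B → K) ∘ φ.symm := rfl
  have htK : AlgebraicIndependent L (fun i => (t i : K)) := by
    rw [htv]
    exact (algebraicIndependent_equiv φ.symm).2 hB
  have htM : AlgebraicIndependent L t := by
    have h1 : (fun i => (t i : K)) = M.val ∘ t := rfl
    rw [h1] at htK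
    exact htK.of_comp M.val
  have hrange : Set.range (fun i => (t i : K)) = B := by
    rw [htv, Set.range_comp, φ.symm.surjective.range_eq, Set.image_univ, Subtype.range_coe]
  refine ⟨w, f, M, t, fun i => (hf i).symm, ?_, hrM, ?_, ?_⟩
  · rw [htM.isTranscendenceBasis_iff_isAlgebraic]
    have hmap : (Algebra.adjoin L (Set.range t)).map M.val = Algebra.adjoin L B := by
      rw [AlgHom.map_adjoin, ← Set.range_comp]
      congr 1
    constructor
    intro x
    have hx : IsAlgebraic (Algebra.adjoin L B) (x : K) := (hAadj _).1 ((hMA _).1 x.2)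
    have hincl : ∀ y : Algebra.adjoin L (Set.range t), ((y : M) : K) ∈ Algebra.adjoin L B := by
      intro y
      rw [← hmap]
      exact ⟨(y : M), y.2, rfl⟩
    let F : Algebra.adjoin L (Set.range t) →+* Algebra.adjoin L B :=
      { toFun := fun y => ⟨((y : M) : K), hincl y⟩
        map_one' := rfl
        map_mul' := fun _ _ => rfl
        map_zero' := rfl
        map_add' := fun _ _ => rfl }
    refine IsAlgebraic.of_ringHom_of_comp_eq (f := F) (g := (algebraMap M K)) hx ?_
      (algebraMap M K).injective rfl
    rintro ⟨y, hy⟩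
    rw [← hmap] at hy
    obtain ⟨z, hz, hzy⟩ := hy
    exact ⟨⟨z, hz⟩, Subtype.ext hzy⟩
  · intro x hx
    rw [hMA]
    have h1 : IsAlgebraic (algebraicClosure A K) x := hx
    have h2 : Algebra.IsAlgebraic A (algebraicClosure A K) := inferInstance
    exact h1.restrictScalars A
  · intro D hDL hDr x hx
    have hxA := (hMA x).1 hx
    apply der_of_alg
    have hle : ∀ y ∈ A, y ∈ consts D := by
      intro y hy
      change D y = 0
      induction hy using IntermediateField.adjoin_induction with
      | mem y hy =>
        have h1 := hDr (φ ⟨y, hy⟩)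
        rw [hf, Equiv.symm_apply_apply] at h1
        exact h1
      | algebraMap c => exact hDL _ c.2
      | add y z _ _ hy hz => rw [map_add, hy, hz, add_zero]
      | inv y _ hy =>
        rw [D.leibniz_inv, hy, smul_zero]
      | mul y z _ _ hy hz => rw [D.leibniz, hy, hz, smul_zero, smul_zero, add_zero]
    obtain ⟨p, hp0, hp⟩ := hxA
    let G : A →+* consts D :=
      { toFun := fun y => ⟨(y : K), hle y y.2⟩
        map_one' := rfl
        map_mul' := fun _ _ => rfl
        map_zero' := rfl
        map_add' := fun _ _ => rfl }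
    refine ⟨p.map G, ?_, ?_⟩
    · exact (Polynomial.map_ne_zero_iff G.injective).2 hp0
    · rw [Polynomial.aeval_def, Polynomial.eval₂_map]
      exact hp

end Pool.Agent.T9h4.TW
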