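import Pool.Agent.T9h4.TW.Block

/-!
Row reduction over a valuation ring.
-/

set_option autoImplicit false

open FF Pool.Agent.W603.LV Pool.Agent.W602.GT

namespace Pool.Agent.T9h4.TW

section

variable {K : Type} [Field K] {ι₁ ι₂ : Type} [Fintype ι₁] [DecidableEq ι₁] [Fintype ι₂]
  [DecidableEq ι₂]

/-- an invertible matrix has a nonzero minor in the first block of columns -/
theorem exists_minor (F : Matrix (ι₁ ⊕ ι₂) (ι₁ ⊕ ι₂) K) (hF : F.det ≠ 0) :
    ∃ s : ι₁ → ι₁ ⊕ ι₂, (Matrix.of fun i j => F (s i) (Sum.inl j)).det ≠ 0 := by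
  classical
  let row : ι₁ ⊕ ι₂ → (ι₁ → K) := fun r j => F r (Sum.inl j)
  obtain ⟨B, hBS, hspan, hlin⟩ := exists_linearIndependent K (Set.range row)
  have htop : Submodule.span K (Set.range row) = ⊤ := by
    rw [eq_top_iff]
    intro v _
    let v' : ι₁ ⊕ ι₂ → K := Sum.elim v 0
    have h1 : Matrix.vecMul (Matrix.vecMul v' F⁻¹) F = v' := by
      rw [Matrix.vecMul_vecMul, Matrix.nonsing_inv_mul _ (isUnit_iff_ne_zero.2 hF),
        Matrix.vecMul_one]
    have h2 : v = ∑ r, (Matrix.vecMul v' F⁻¹) r • row r := by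
      funext j
      have h3 := congrFun h1 (Sum.inl j)
      rw [Finset.sum_apply]
      change _ = v j at h3
      rw [← h3]
      rfl
    rw [h2]
    exact Submodule.sum_mem _ fun r _ => Submodule.smul_mem _ _ (Submodule.subset_span ⟨r, rfl⟩)
  have hfin : Finite B := hlin.finite
  have : Fintype B := Fintype.ofFinite B
  have hcard : Fintype.card B = Fintype.card ι₁ := by
    have h1 := finrank_span_set_eq_card hlin
    rw [hspan, htop, finrank_top, Module.finrank_fintype_fun_eq_card, Set.toFinset_card] at h1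
    exact h1.symm
  obtain ⟨e⟩ : Nonempty (ι₁ ≃ B) := Fintype.card_eq.1 hcard.symm
  have hB : ∀ x : B, ∃ r, row r = x := fun x => hBS x.2
  choose f hf using hB
  refine ⟨fun i => f (e i), ?_⟩
  have h1 : LinearIndependent K (Matrix.of fun i j => F (f (e i)) (Sum.inl j)).row := by
    have h2 : (Matrix.of fun i j => F (f (e i)) (Sum.inl j)).row =
        (Subtype.val : B → ι₁ → K) ∘ e := by
      funext i
      exact hf (e i)
    rw [h2]
    exact hlin.comp e e.injective
  rw [Matrix.linearIndependent_rows_iff_isUnit, Matrix.isUnit_iff_isUnit_det] at h1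
  exact h1.ne_zero

end

variable {k K : Type} [Field k] [Field K] [Algebra k K]

/-- Row reduction. -/
theorem exists_rows (P : Place k K) {ι₁ ι₂ : Type} [Fintype ι₁] [DecidableEq ι₁] [Fintype ι₂]
    [DecidableEq ι₂] (F : Matrix (ι₁ ⊕ ι₂) (ι₁ ⊕ ι₂) K) (hF : F.det ≠ 0) :
    ∃ (σ : Equiv.Perm (ι₁ ⊕ ι₂)) (C : ι₂ → ι₁ → K), (∀ i j, P.Reg (C i j)) ∧
      ∀ i j, F (σ (Sum.inr i)) (Sum.inl j) = ∑ l, C i l * F (σ (Sum.inl l)) (Sum.inl j) := by
  classical
  let M : (ι₁ → ι₁ ⊕ ι₂) → Matrix ι₁ ι₁ K := fun s => Matrix.of fun i j => F (s i) (Sum.inl j)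
  obtain ⟨s0, hs0⟩ := exists_minor F hF
  obtain ⟨s, hs, hmin⟩ := Finset.exists_min_image
    (Finset.univ.filter fun s : ι₁ → ι₁ ⊕ ι₂ => (M s).det ≠ 0) (fun s => P.ord (M s).det)
    ⟨s0, by simpa using hs0⟩
  rw [Finset.mem_filter] at hs
  have hs1 : (M s).det ≠ 0 := hs.2
  have hinj : Function.Injective s := by
    intro a b hab
    by_contra hne
    apply hs1
    apply Matrix.det_zero_of_row_eq hne
    funext j
    change F (s a) (Sum.inl j) = F (s b) (Sum.inl j)
    rw [hab]
  let e : {x : ι₁ ⊕ ι₂ // x ∈ Set.range (Sum.inl : ι₁ → ι₁ ⊕ ι₂)} ≃ {x // x ∈ Set.range s} :=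
    (Equiv.ofInjective _ Sum.inl_injective).symm.trans (Equiv.ofInjective s hinj)
  let σ : Equiv.Perm (ι₁ ⊕ ι₂) := e.extendSubtype
  have hσ : ∀ i, σ (Sum.inl i) = s i := by
    intro i
    have h1 : σ (Sum.inl i) = e ⟨Sum.inl i, i, rfl⟩ :=
      Equiv.extendSubtype_apply_of_mem e (Sum.inl i) ⟨i, rfl⟩
    rw [h1]
    have h2 : (Equiv.ofInjective (Sum.inl : ι₁ → ι₁ ⊕ ι₂) Sum.inl_injective).symm
        ⟨Sum.inl i, i, rfl⟩ = i := by
      rw [Equiv.symm_apply_eq]
      rfl
    simp only [e, Equiv.trans_apply, h2]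
    rfl
  refine ⟨σ, fun i l => (M (Function.update s l (σ (Sum.inr i)))).det / (M s).det, ?_, ?_⟩
  · intro i l
    beta_reduce
    by_cases h0 : (M (Function.update s l (σ (Sum.inr i)))).det = 0
    · rw [h0, zero_div]
      exact P.reg_zero
    · right
      rw [P.ord_div h0 hs1]
      have h1 := hmin (Function.update s l (σ (Sum.inr i))) (by simpa using h0)
      change P.ord (M s).det ≤ P.ord (M (Function.update s l (σ (Sum.inr i)))).det at h1
      omega
  · intro i j
    have h1 := congrFun (Matrix.mulVec_cramer (M s).transpose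
      (fun j => F (σ (Sum.inr i)) (Sum.inl j))) j
    rw [Matrix.det_transpose] at h1
    have h2 : ∀ l, M (Function.update s l (σ (Sum.inr i))) =
        (M s).updateRow l (fun j => F (σ (Sum.inr i)) (Sum.inl j)) := by
      intro l
      ext a b
      by_cases h : a = l
      · subst h
        simp [M]
      · simp [M, h]
    have h3 : ((M s).transpose.mulVec ((M s).transpose.cramer
        (fun j => F (σ (Sum.inr i)) (Sum.inl j)))) j =
        ∑ l, F (σ (Sum.inl l)) (Sum.inl j) * (M (Function.update s l (σ (Sum.inr i)))).det := by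
      rw [Matrix.mulVec, dotProduct]
      refine Finset.sum_congr rfl fun l _ => ?_
      rw [Matrix.cramer_transpose_apply, h2, hσ]
      rfl
    rw [h3] at h1
    simp only [Pi.smul_apply, smul_eq_mul] at h1
    have h4 : ∑ l, (M (Function.update s l (σ (Sum.inr i)))).det / (M s).det *
        F (σ (Sum.inl l)) (Sum.inl j) = (∑ l, F (σ (Sum.inl l)) (Sum.inl j) *
          (M (Function.update s l (σ (Sum.inr i)))).det) / (M s).det := by
      rw [Finset.sum_div]
      exact Finset.sum_congr rfl fun l _ => by ring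
    rw [h4, h1]
    field_simp

end Pool.Agent.T9h4.TW
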