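import Pool.Agent.T9h4.TW.Step

/-!
General type, or a vector field with constant ratios: the bound depends only on the number of terms.
-/

set_option autoImplicit false

open FF Pool.Agent.W603.LV Pool.Agent.W602.GT

namespace Pool.Agent.T9h4.TW

variable {k K : Type} [Field k] [Field K] [Algebra k K]

theorem Good.reindex {Bd : Place k K → Prop} {L : IntermediateField k K} {ι ι' : Type} [Fintype ι]
    [DecidableEq ι] [Fintype ι'] [DecidableEq ι'] {t : ι → K} {N : ℕ} {g : K} (e : ι' ≃ ι)
    (h : Good Bd L t N g) : Good Bd L (t ∘ e) N g := by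
  intro P D hD hc
  have h1 := h P (D ∘ e.symm) (fun i => hD _) (by
    rcases hc with h2 | ⟨hb, h2⟩
    · exact Or.inl fun i => h2 _
    · exact Or.inr ⟨hb, fun i => h2 _⟩)
  have h2 : (Matrix.of fun i j => D i ((t ∘ e) j)) =
      (Matrix.of fun i j => (D ∘ e.symm) i (t j)).submatrix e e := by
    ext i j
    simp
  rw [h2, Matrix.det_submatrix_equiv_self]
  exact h1

theorem base_forms [IsAlgClosed k] {w : ℕ} (htr : Algebra.trdeg k K = w) {Bd : Place k K → Prop}
    {d : ℕ} (h : Forms Bd (⊥ : IntermediateField k K) d) :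
    ∃ (t : Fin w → K) (W : ℕ) (g : K), IsTranscendenceBasis k t ∧ 0 < W ∧ g ≠ 0 ∧
      Good Bd ⊥ t W g ∧ ∀ i, Good Bd ⊥ t W (g * t i ^ d) := by
  obtain ⟨ι, i1, i2, t, W, g, hW, hg, ht, h1, h2⟩ := h
  have halg : AlgebraicIndependent k t :=
    ht.1.restrictScalars (algebraMap k (⊥ : IntermediateField k K)).injective
  have hb0 : Algebra.trdeg k (⊥ : IntermediateField k K) = 0 := by
    rw [trdeg_eq_zero_iff]
    constructor
    intro x
    obtain ⟨c, hc⟩ := IntermediateField.mem_bot.1 x.2
    have h3 : x = algebraMap k (⊥ : IntermediateField k K) c := Subtype.ext hc.symm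
    rw [h3]
    exact isAlgebraic_algebraMap c
  have h3 := trdeg_add_eq k (⊥ : IntermediateField k K) (A := K)
  rw [hb0, zero_add, htr] at h3
  have h4 := ht.cardinalMk_eq_trdeg
  rw [h3] at h4
  have h5 : Nonempty (Fin w ≃ ι) := by
    rw [← Cardinal.eq, Cardinal.mk_fin]
    exact h4.symm
  obtain ⟨e⟩ := h5
  have h6 : IsTranscendenceBasis k t :=
    halg.isTranscendenceBasis_of_trdeg_le_of_finite (by rw [htr, h4])
  exact ⟨t ∘ e, W, g, h6.comp_equiv e, hW, hg, h1.reindex e, fun i => (h2 (e i)).reindex e⟩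

theorem killsBot (D : Derivation k K K) : ∀ x ∈ (⊥ : IntermediateField k K), D x = 0 := by
  intro x hx
  obtain ⟨c, rfl⟩ := IntermediateField.mem_bot.1 hx
  exact D.map_algebraMap c

theorem logSec_of_good {w : ℕ} {Bd : Place k K → Prop} {t : Fin w → K} {W : ℕ} {g : K}
    (h : Good Bd ⊥ t W g) : LogSec k K w W Bd (form t W g) := by
  refine ⟨form_pluri t W g, fun P _ D hD => ?_, fun P _ hb D hD => ?_⟩
  · exact h P D (fun i => killsBot (D i)) (Or.inl hD)
  · exact h P D (fun i => killsBot (D i)) (Or.inr ⟨hb, hD⟩)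

variable [IsAlgClosed k] [CharZero k]

theorem base_closed : ∀ x : K, IsAlgebraic (⊥ : IntermediateField k K) x →
    x ∈ (⊥ : IntermediateField k K) := by
  intro x hx
  have h1 : Algebra.IsAlgebraic k (⊥ : IntermediateField k K) := by
    constructor
    intro x
    obtain ⟨c, hc⟩ := IntermediateField.mem_bot.1 x.2
    have h3 : x = algebraMap k (⊥ : IntermediateField k K) c := Subtype.ext hc.symm
    rw [h3]
    exact isAlgebraic_algebraMap c
  obtain ⟨c, hc⟩ := const_of_algebraic (hx.restrictScalars k)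
  rw [hc, IntermediateField.mem_bot]
  exact ⟨c, rfl⟩

section

variable {w : ℕ} (htr : Algebra.trdeg k K = w) {Ε : Type} {J : Ε → Type} [∀ e, Fintype (J e)]
  (g : ∀ e, J e → K) (hg : ∀ e j, g e j ≠ 0) (hsum : ∀ e, ∑ j, g e j = 0) (N : Ε → ℕ)
  (Bd : Place k K → Prop)
  (hjump : ∀ P : Place k K, ¬ Bd P → ∀ e i j, P.ord (g e i) = P.ord (g e j) ∨
    (N e : ℤ) ≤ |P.ord (g e i) - P.ord (g e j)|)

include htr hg hsum hjump

theorem system_kod
    (hN : ∀ e, Fintype.card (J e) * tn (Fintype.card (J e) - 1) ≤ N e) :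
    KodGe k K w Bd 0 ∨ Split (k := k) g := by
  have h3 := trdeg_add_eq k (⊥ : IntermediateField k K) (A := K)
  obtain ⟨r, hr⟩ : ∃ r : ℕ, Algebra.trdeg (⊥ : IntermediateField k K) K = r := by
    have h5 : Algebra.trdeg (⊥ : IntermediateField k K) K ≤ (w : Cardinal) := by
      rw [← htr, ← h3]
      exact self_le_add_left _ _
    exact Cardinal.lt_aleph0.1 (h5.trans_lt Cardinal.natCast_lt_aleph0)
  rcases tower g hg hsum N 0 hN Bd hjump r ⊥ base_closed hr with h | h
  · left
    obtain ⟨t, W, g', ht, hW, hg', h1, -⟩ := base_forms htr h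
    obtain ⟨D, hD⟩ := exists_dual ht
    have hf : form t W g' D = g' := by
      unfold form
      rw [hD, Matrix.det_one, one_pow, mul_one]
    refine ⟨W, hW, fun _ => form t W g', fun _ => logSec_of_good h1, D, ?_, ?_⟩
    · change form t W g' D ≠ 0
      rw [hf]
      exact hg'
    · rw [algebraicIndependent_empty_type_iff]
      exact (algebraMap k K).injective
  · exact Or.inr h

theorem system_general
    (hN : ∀ e, Fintype.card (J e) * tn (Fintype.card (J e) - 1) < N e) :
    LogGeneralType k K w Bd ∨ Split (k := k) g := by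
  have h3 := trdeg_add_eq k (⊥ : IntermediateField k K) (A := K)
  obtain ⟨r, hr⟩ : ∃ r : ℕ, Algebra.trdeg (⊥ : IntermediateField k K) K = r := by
    have h5 : Algebra.trdeg (⊥ : IntermediateField k K) K ≤ (w : Cardinal) := by
      rw [← htr, ← h3]
      exact self_le_add_left _ _
    exact Cardinal.lt_aleph0.1 (h5.trans_lt Cardinal.natCast_lt_aleph0)
  rcases tower g hg hsum N 1 hN Bd hjump r ⊥ base_closed hr with h | h
  · left
    obtain ⟨t, W, g', ht, hW, hg', h1, h2⟩ := base_forms htr h
    obtain ⟨D, hD⟩ := exists_dual ht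
    have hf : ∀ g, form t W g D = g := fun g => by
      unfold form
      rw [hD, Matrix.det_one, one_pow, mul_one]
    let ω : Fin (w + 1) → (Fin w → Derivation k K K) → K :=
      Fin.cases (form t W g') fun i => form t W (g' * t i ^ 1)
    have hω : ∀ j, LogSec k K w W Bd (ω j) := by
      intro j
      refine Fin.cases ?_ (fun i => ?_) j
      · exact logSec_of_good h1
      · exact logSec_of_good (h2 i)
    refine ⟨htr, W, hW, ω, fun j => (hω j).1, fun P hP j => (hω j).2.1 P hP,
      fun P hP hb j => (hω j).2.2 P hP hb, D, ?_, ?_⟩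
    · change form t W g' D ≠ 0
      rw [hf]
      exact hg'
    · have h4 : (fun i : Fin w => ω i.succ D / ω 0 D) = t := by
        funext i
        change form t W (g' * t i ^ 1) D / form t W g' D = t i
        rw [hf, hf, pow_one]
        field_simp
      rw [h4]
      exact ht.1
  · exact Or.inr h

end

end Pool.Agent.T9h4.TW
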