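import Pool.Agent.T9h4.TW.Pick
import Pool.Agent.W602.GT.KDefs

/-!
The dichotomy for systems of unit equations, with a bound which depends only on the number of terms.
-/

set_option autoImplicit false

open FF Pool.Agent.W603.LV Pool.Agent.W602.GT

namespace Pool.Agent.T9h4.TW

variable {k K : Type} [Field k] [Field K] [Algebra k K]

/-- a nonzero vector field such that the sums split into vanishing sums with constant ratios -/
def Split {Ε : Type} {J : Ε → Type} (g : ∀ e, J e → K) : Prop :=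
  ∃ D : Derivation k K K, D ≠ 0 ∧ ∀ e, ∃ R : J e → J e → Prop, Equivalence R ∧
    (∀ i j, R i j → D (g e i) * g e j = g e i * D (g e j)) ∧
    ∀ (j0 : J e) (A : Finset (J e)), (∀ j, j ∈ A ↔ R j0 j) → ∑ j ∈ A, g e j = 0

/-- good relative forms over `L` -/
def Forms (Bd : Place k K → Prop) (L : IntermediateField k K) (d : ℕ) : Prop :=
  ∃ (ι : Type) (_ : Fintype ι) (_ : DecidableEq ι) (t : ι → K) (W : ℕ) (g : K),
    0 < W ∧ g ≠ 0 ∧ IsTranscendenceBasis L t ∧ Good Bd L t W g ∧ ∀ i, Good Bd L t W (g * t i ^ d)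

theorem split_of [CharZero k] {Ε : Type} {J : Ε → Type} [∀ e, Fintype (J e)] (g : ∀ e, J e → K)
    (hg : ∀ e j, g e j ≠ 0) (hsum : ∀ e, ∑ j, g e j = 0) (L : IntermediateField k K)
    (hL : ¬ Algebra.IsAlgebraic L K)
    (hC : ∀ e (C : CD L (g e)) (a b : Fin (C.m + 1)),
      (C.c a • g e (C.e a)) / (C.c b • g e (C.e b)) ∈ L) : Split (k := k) g := by
  classical
  obtain ⟨D, hD0, hD⟩ := exists_der_over (k := k) (L : Set K) (by
    rw [IntermediateField.adjoin_self]
    exact hL)
  refine ⟨D, hD0, fun e => ?_⟩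
  let R0 : J e → J e → Prop := fun i j => ∃ (C : CD L (g e)) (a b : Fin (C.m + 1)),
    C.e a = i ∧ C.e b = j
  have hR0 : ∀ i j, R0 i j → D (g e i) * g e j = g e i * D (g e j) := by
    rintro _ _ ⟨C, a, b, rfl, rfl⟩
    have h1 := hD _ (hC e C a b)
    have hca : (C.c a : K) ≠ 0 := fun h => C.hc a (Subtype.ext h)
    have hcb : (C.c b : K) ≠ 0 := fun h => C.hc b (Subtype.ext h)
    have hga := hg e (C.e a)
    have hgb := hg e (C.e b)
    have hs : ∀ (c : L) (x : K), c • x = (c : K) * x := fun c x => rfl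
    rw [hs, hs, div_eq_mul_inv, D.leibniz, D.leibniz_inv, D.leibniz,
      D.leibniz, hD _ (C.c a).2, hD _ (C.c b).2] at h1
    simp only [smul_eq_mul, mul_zero, add_zero] at h1
    field_simp at h1
    rw [mul_zero] at h1
    have h2 := (mul_eq_zero.1 h1).resolve_left hca
    linear_combination h2
  refine ⟨Relation.EqvGen R0, Relation.EqvGen.is_equivalence R0, ?_, ?_⟩
  · intro i j hij
    induction hij with
    | rel i j h => exact hR0 i j h
    | refl i => exact mul_comm _ _
    | symm i j _ ih => linear_combination -ih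
    | trans i j l _ _ ih1 ih2 =>
      have hj := hg e j
      apply mul_right_cancel₀ hj
      linear_combination (g e l) * ih1 + (g e i) * ih2
  · intro j0 A hA
    have key := class_sum (k := L) (g e) (Relation.EqvGen R0) (Relation.EqvGen.is_equivalence R0)
      (by
        intro m em hem c hc hrel hlin i j
        exact Relation.EqvGen.rel _ _ ⟨⟨m, em, hem, c, hc, hrel, hlin⟩, i, j, rfl, rfl⟩)
      (Fintype.card (J e)) (fun _ => 1) (Finset.card_le_univ _)
      (by simpa using hsum e) j0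
    simp only [one_smul] at key
    rw [← key]
    exact Finset.sum_congr (by ext j; simp [hA]) (fun _ _ => rfl)

theorem tn_pos {m : ℕ} (h : 2 ≤ m) : 0 < tn m := by
  have h1 : tn 2 ≤ tn m := tn_mono h
  have h2 : tn 2 = 1 := rfl
  omega

theorem forms_trivial {Bd : Place k K → Prop} {L : IntermediateField k K} (d : ℕ)
    (hL : Algebra.IsAlgebraic L K) : Forms Bd L d := by
  obtain ⟨s, hs⟩ := exists_isTranscendenceBasis L K
  have hemp : IsEmpty s := hs.isEmpty_iff_isAlgebraic.2 hL
  have hfin : Fintype s := Fintype.ofIsEmpty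
  refine ⟨s, hfin, inferInstance, _, 1, 1, one_pos, one_ne_zero, hs, ?_, fun i => ?_⟩
  · intro P D _ _
    rw [Matrix.det_isEmpty, one_pow, mul_one]
    exact P.reg_one
  · exact (hemp.false i).elim

theorem forms_comp {Bd : Place k K → Prop} {L : IntermediateField k K} {M : IntermediateField L K}
    {d w W : ℕ} {t : Fin w → M} {g : K} (hW : 0 < W) (hg : g ≠ 0) (ht : IsTranscendenceBasis L t)
    (h1 : Good Bd L (fun i => (t i : K)) W g)
    (h2 : ∀ i, Good Bd L (fun i => (t i : K)) W (g * (t i : K) ^ d))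
    (hM : ∀ D : Derivation k K K, (∀ x ∈ L, D x = 0) → (∀ i, D (t i : K) = 0) →
      ∀ x ∈ M, D x = 0)
    (hF : Forms Bd (M.restrictScalars k) d) : Forms Bd L d := by
  classical
  obtain ⟨ι, i1, i2, t2, W2, g2, hW2, hg2, ht2, h3, h4⟩ := hF
  have hN : 0 < W * W2 := Nat.mul_pos hW hW2
  have h3' : Good Bd (M.restrictScalars k) t2 (W * W2) (g2 ^ W) := by
    have := h3.pow W
    rwa [mul_comm W2 W] at this
  have h1' : Good Bd L (fun i => (t i : K)) (W * W2) (g ^ W2) := h1.pow W2
  refine ⟨Fin w ⊕ ι, inferInstance, inferInstance, Sum.elim (fun i => (t i : K)) t2, W * W2,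
    g ^ W2 * g2 ^ W, hN, mul_ne_zero (pow_ne_zero _ hg) (pow_ne_zero _ hg2), ?_,
    Good.comp hN hM h1' h3', ?_⟩
  · have h5 : IsTranscendenceBasis L (Sum.elim t2 (algebraMap M K ∘ t)) :=
      ht.sumElim_comp (S := M) ht2
    have h6 := h5.comp_equiv (Equiv.sumComm (Fin w) ι)
    have h7 : Sum.elim t2 (algebraMap M K ∘ t) ∘ (Equiv.sumComm (Fin w) ι) =
        Sum.elim (fun i => (t i : K)) t2 := by
      funext i
      rcases i with i | i <;> rfl
    rwa [h7] at h6
  · intro i
    rcases i with i | i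
    · have h5 : Good Bd L (fun i => (t i : K)) (W * W2) (g ^ W2 * (t i : K) ^ d) := by
        obtain ⟨v, rfl⟩ : ∃ v, W2 = v + 1 := ⟨W2 - 1, by omega⟩
        have h6 := (h1.pow v).mul (h2 i)
        have e : g ^ v * (g * (t i : K) ^ d) = g ^ (v + 1) * (t i : K) ^ d := by ring
        rwa [e, ← Nat.mul_succ] at h6
      have h6 := Good.comp hN hM h5 h3'
      have e : g ^ W2 * (t i : K) ^ d * g2 ^ W =
          g ^ W2 * g2 ^ W * Sum.elim (fun i => (t i : K)) t2 (Sum.inl i) ^ d := by
        rw [Sum.elim_inl]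
        ring
      rwa [e] at h6
    · have h5 : Good Bd (M.restrictScalars k) t2 (W * W2) (g2 ^ W * t2 i ^ d) := by
        obtain ⟨v, rfl⟩ : ∃ v, W = v + 1 := ⟨W - 1, by omega⟩
        have h6 := (h3.pow v).mul (h4 i)
        have e : g2 ^ v * (g2 * t2 i ^ d) = g2 ^ (v + 1) * t2 i ^ d := by ring
        rw [e, ← Nat.mul_succ, mul_comm W2] at h6
        exact h6
      have h6 := Good.comp hN hM h1' h5
      have e : g ^ W2 * (g2 ^ W * t2 i ^ d) =
          g ^ W2 * g2 ^ W * Sum.elim (fun i => (t i : K)) t2 (Sum.inr i) ^ d := by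
        rw [Sum.elim_inr]
        ring
      rwa [e] at h6

end Pool.Agent.T9h4.TW
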